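import Pool.Agent.H17.GS.Stm
import Pool.Agent.H77.TF.Pri

/-!
# Project GS: Jacobian syzygies and logarithmic fields (EQV)
-/

set_option autoImplicit false

open MvPolynomial Module Pool.Agent.H77.TF Pool.Agent.H17.GS

namespace Pool.Agent.H76.GS

variable {K : Type} [Field K]

theorem hc_mul {p q : MvPolynomial (Fin 3) K} {b : ℕ} (hq : q.IsHomogeneous b) (a : ℕ) :
    homogeneousComponent (a + b) (p * q) = homogeneousComponent a p * q := by
  have h1 : p * q = ∑ i ∈ Finset.range (p.totalDegree + 1), homogeneousComponent i p * q := by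
    rw [← Finset.sum_mul, sum_homogeneousComponent]
  have h2 : ∀ i ∈ Finset.range (p.totalDegree + 1),
      homogeneousComponent (a + b) (homogeneousComponent i p * q) =
        if a = i then homogeneousComponent a p * q else 0 := by
    intro i _
    rw [homogeneousComponent_of_mem ((homogeneousComponent_isHomogeneous i p).mul hq)]
    by_cases h : a = i
    · subst h
      rw [if_pos rfl, if_pos rfl]
    · rw [if_neg (by omega), if_neg h]
  rw [h1, map_sum, Finset.sum_congr rfl h2, Finset.sum_ite_eq]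
  split_ifs with h
  · rfl
  · rw [Finset.mem_range] at h
    rw [homogeneousComponent_eq_zero _ _ (by omega), zero_mul]

theorem hc_self {f : MvPolynomial (Fin 3) K} {m : ℕ} (h : f.IsHomogeneous m) :
    homogeneousComponent m f = f := by
  rw [homogeneousComponent_of_mem h, if_pos rfl]

theorem lin_hom (a : Fin 3 → K) : (lin a).IsHomogeneous 1 := by
  refine IsHomogeneous.sum _ _ _ fun i _ => ?_
  simpa using (isHomogeneous_C (Fin 3) (a i)).mul (isHomogeneous_X K i)

/-- the derivative of `g` in the direction of `v` -/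
noncomputable def Dv (v : Fin 3 → MvPolynomial (Fin 3) K) (g : MvPolynomial (Fin 3) K) :
    MvPolynomial (Fin 3) K := ∑ j, v j * pderiv j g

theorem Dv_mul (v : Fin 3 → MvPolynomial (Fin 3) K) (g h : MvPolynomial (Fin 3) K) :
    Dv v (g * h) = g * Dv v h + h * Dv v g := by
  simp only [Dv, Finset.mul_sum, ← Finset.sum_add_distrib]
  refine Finset.sum_congr rfl fun j _ => ?_
  rw [Derivation.leibniz, smul_eq_mul, smul_eq_mul]
  ring

theorem Dv_lin (a : Fin 3 → K) (v : Fin 3 → MvPolynomial (Fin 3) K) : Dv v (lin a) = evl a v := by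
  unfold Dv lin evl
  refine Finset.sum_congr rfl fun j _ => ?_
  have h1 : pderiv j (∑ i, C (a i) * X i : MvPolynomial (Fin 3) K) = C (a j) := by
    rw [map_sum]
    simp only [pderiv_C_mul, pderiv_X, Pi.single_apply, smul_eq_mul]
    simp
  rw [h1, mul_comm]

variable {n : ℕ} {A : Fin n → Fin 3 → K}

theorem syz_mem (hA : Simple A) {v : Fin 3 → MvPolynomial (Fin 3) K} (hv : IsSyz A v) : v ∈ LD A := by
  intro i
  obtain ⟨hp, hdvd⟩ := pri K 3 (A i) (hA.1 i)
  have h1 : ∏ k, lin (A k) = lin (A i) * ∏ k ∈ Finset.univ.erase i, lin (A k) :=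
    (Finset.mul_prod_erase _ _ (Finset.mem_univ i)).symm
  have h2 : Dv v (∏ k, lin (A k)) = 0 := hv
  rw [h1, Dv_mul, Dv_lin] at h2
  have h3 : lin (A i) ∣ (∏ k ∈ Finset.univ.erase i, lin (A k)) * evl (A i) v := by
    rw [← dvd_add_right (dvd_mul_right (lin (A i)) (Dv v (∏ k ∈ Finset.univ.erase i, lin (A k)))), h2]
    exact dvd_zero _
  rcases hp.dvd_or_dvd h3 with h4 | h4
  · obtain ⟨k, hk, h5⟩ := (hp.dvd_finset_prod_iff _).1 h4
    obtain ⟨c, hc⟩ := hdvd (A k) h5
    exact absurd hc (hA.2 k i (Finset.ne_of_mem_erase hk) c)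
  · exact h4

theorem dvd_Dv {v : Fin 3 → MvPolynomial (Fin 3) K} (hv : v ∈ LD A) (s : Finset (Fin n)) :
    ∏ i ∈ s, lin (A i) ∣ Dv v (∏ i ∈ s, lin (A i)) := by
  classical
  induction s using Finset.induction_on with
  | empty => exact ⟨Dv v (∏ i ∈ ∅, lin (A i)), by rw [Finset.prod_empty, one_mul]⟩
  | insert i s hi ih =>
    rw [Finset.prod_insert hi, Dv_mul, Dv_lin]
    refine dvd_add (mul_dvd_mul_left _ ih) ?_
    rw [mul_comm (lin (A i))]
    exact mul_dvd_mul_left _ (hv i)

theorem prod_hom (A : Fin n → Fin 3 → K) : (∏ i, lin (A i)).IsHomogeneous n := by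
  have h := IsHomogeneous.prod Finset.univ (fun i => lin (A i)) (fun _ : Fin n => 1)
    (fun i _ => lin_hom (A i))
  simpa using h

theorem prod_ne (hA : Simple A) : ∏ i, lin (A i) ≠ 0 :=
  Finset.prod_ne_zero_iff.2 fun i _ => (pri K 3 (A i) (hA.1 i)).1.ne_zero

theorem eqv : S_EQV := by
  intro K _ _ n A hA hn e
  have hf := prod_hom A
  have hf0 := prod_ne hA
  have heul := hf.sum_X_mul_pderiv
  have hnK : (n : K) ≠ 0 := Nat.cast_ne_zero.2 (by omega)
  constructor
  · rintro ⟨v, h1, h2, h3⟩
    refine ⟨v, syz_mem hA h1, h2, ?_⟩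
    by_contra hne
    push Not at hne
    refine h3 (funext fun i => ?_)
    have h4 : X i * ∑ j, v j * pderiv j (∏ i, lin (A i)) = v i * (n • ∏ i, lin (A i)) := by
      rw [← heul, Finset.mul_sum, Finset.mul_sum]
      refine Finset.sum_congr rfl fun j _ => ?_
      rw [← mul_assoc, hne i j]
      ring
    rw [show ∑ j, v j * pderiv j (∏ i, lin (A i)) = 0 from h1, mul_zero, nsmul_eq_mul] at h4
    have h5 : (n : MvPolynomial (Fin 3) K) ≠ 0 := by
      have : (n : MvPolynomial (Fin 3) K) = C (n : K) := (map_natCast C n).symm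
      rw [this]
      exact (C_eq_zero.not).2 hnK
    rcases mul_eq_zero.1 h4.symm with h6 | h6
    · exact h6
    · exact absurd h6 (mul_ne_zero h5 hf0)
  · rintro ⟨v, h1, h2, i, j, h3⟩
    obtain ⟨g, hg⟩ := dvd_Dv h1 Finset.univ
    have hg' : ∑ j, v j * pderiv j (∏ i, lin (A i)) = (∏ i, lin (A i)) * g := hg
    let w : Fin 3 → MvPolynomial (Fin 3) K := fun j => v j - C (n : K)⁻¹ * g * X j
    have hw : ∑ j, w j * pderiv j (∏ i, lin (A i)) = 0 := by
      simp only [w, sub_mul, Finset.sum_sub_distrib]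
      rw [hg']
      have h4 : ∑ j, C (n : K)⁻¹ * g * X j * pderiv j (∏ i, lin (A i)) =
          C (n : K)⁻¹ * g * ∑ j, X j * pderiv j (∏ i, lin (A i)) := by
        rw [Finset.mul_sum]
        exact Finset.sum_congr rfl fun j _ => by ring
      rw [h4, heul, nsmul_eq_mul]
      have h5 : (C (n : K)⁻¹ : MvPolynomial (Fin 3) K) * (n : MvPolynomial (Fin 3) K) = 1 := by
        rw [← map_natCast (C : K →+* MvPolynomial (Fin 3) K) n, ← C_mul, inv_mul_cancel₀ hnK, C_1]
      calc (∏ i, lin (A i)) * g - C (n : K)⁻¹ * g * ((n : MvPolynomial (Fin 3) K) * ∏ i, lin (A i))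
          = (∏ i, lin (A i)) * g * (1 - C (n : K)⁻¹ * (n : MvPolynomial (Fin 3) K)) := by ring
        _ = 0 := by rw [h5, sub_self, mul_zero]
    refine ⟨fun j => homogeneousComponent e (w j), ?_,
      fun j => homogeneousComponent_isHomogeneous e (w j), ?_⟩
    · show ∑ j, homogeneousComponent e (w j) * pderiv j (∏ i, lin (A i)) = 0
      have h4 := congrArg (homogeneousComponent (e + (n - 1))) hw
      rw [map_sum, map_zero] at h4
      rw [← h4]
      exact Finset.sum_congr rfl fun j _ => (hc_mul hf.pderiv e).symm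
    · intro h4
      have h5 : ∀ s, v s = homogeneousComponent e (C (n : K)⁻¹ * g * X s) := fun s => by
        have h6 : homogeneousComponent e (w s) = 0 := congrFun h4 s
        rw [show w s = v s - C (n : K)⁻¹ * g * X s from rfl, map_sub, hc_self (h2 s), sub_eq_zero] at h6
        exact h6
      refine h3 ?_
      have h7 : ∀ s t, X s * v t = homogeneousComponent (e + 1) (C (n : K)⁻¹ * g * X t * X s) := fun s t => by
        rw [hc_mul (isHomogeneous_X K s) e, ← h5 t, mul_comm]
      rw [h7 i j, h7 j i]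
      congr 1
      ring

end Pool.Agent.H76.GS
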